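import Pool.Agent.H53.GX.Targets

/-!
# Forbidden coloured patterns, no precolouring: the outputs of the configurations (row CEX)
-/

set_option autoImplicit false
set_option linter.unusedVariables false

namespace Pool.Agent.H37.GX

open Pool.Agent.H68.BP Pool.Agent.H58.SF Pool.Agent.H53.GM Pool.Agent.H53.GX
open Classical

section one

variable {τ σ : Sig} {N k L : ℕ} {F : Set (Str τ (Fin N))} {I : Finset (Fin k)}
  {a₀ : Ty τ N (Fin (k + k))} {W : Type} {E : Sy (Fin (k + k) × Rg L) (Kd τ N (k + k)) W}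

/-- the guard of the copy of the configuration -/
noncomputable def gq (φ : {q : Nm τ N k L // CfX F I a₀ q} × Fin k → W)
    (q : {q : Nm τ N k L // CfX F I a₀ q}) (e : Finset (Fin k)) :
    Finset W := (e.image (fun v => (q, v))).image φ

theorem mem_gq {φ : {q : Nm τ N k L // CfX F I a₀ q} × Fin k → W}
    {q : {q : Nm τ N k L // CfX F I a₀ q}} {e : Finset (Fin k)} {w : W} :
    w ∈ gq φ q e ↔ ∃ v ∈ e, φ (q, v) = w := by
  unfold gq
  rw [Finset.image_image]
  simp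

theorem cX_gd {q : {q : Nm τ N k L // CfX F I a₀ q}} {e : Finset (Fin k)}
    (he : Disjoint e q.1.1) :
    (cX L F I a₀).gd (e.image (fun v => (q, v))) (kdx I a₀ q.1 e) :=
  ⟨q, e, he, rfl, rfl⟩

theorem gq_gd {φ : {q : Nm τ N k L // CfX F I a₀ q} × Fin k → W}
    (hφ : Hm (cX L F I a₀) E φ) {q : {q : Nm τ N k L // CfX F I a₀ q}}
    {e : Finset (Fin k)} (he : Disjoint e q.1.1) :
    E.gd (gq φ q e) (kdx I a₀ q.1 e) ∧
      ∀ v ∈ e, E.pt (φ (q, v)) = (Fin.castAdd k v, q.1.2.2.1 v) := by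
  obtain ⟨h1, h2⟩ := hφ _ _ (cX_gd (q := q) he)
  exact ⟨h1, fun v hv => h2 (q, v) (Finset.mem_image_of_mem (fun v => (q, v)) hv)⟩

theorem lbx_cast (lb : Fin k → Rg L) (v : Fin k) : lbx lb (Fin.castAdd k v) = lb v := by
  unfold lbx
  rw [Fin.addCases_left]

theorem cast_inj {v v' : Fin k} (h : Fin.castAdd k v = Fin.castAdd k v') : v = v' :=
  Fin.castAdd_injective k k h

theorem gq_image {φ : {q : Nm τ N k L // CfX F I a₀ q} × Fin k → W}
    {q : {q : Nm τ N k L // CfX F I a₀ q}} {e : Finset (Fin k)}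
    (hp : ∀ v ∈ e, E.pt (φ (q, v)) = (Fin.castAdd k v, q.1.2.2.1 v)) :
    (gq φ q e).image E.pt = pts (lbx q.1.2.2.1) (ps e) := by
  unfold gq pts ps
  rw [Finset.image_image, Finset.image_image, Finset.image_image]
  refine Finset.image_congr fun v hv => ?_
  change E.pt (φ (q, v)) = (Fin.castAdd k v, lbx q.1.2.2.1 (Fin.castAdd k v))
  rw [hp v hv, lbx_cast]

theorem gq_ag {φ : {q : Nm τ N k L // CfX F I a₀ q} × Fin k → W}
    {q : {q : Nm τ N k L // CfX F I a₀ q}} {e : Finset (Fin k)}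
    (hp : ∀ v ∈ e, E.pt (φ (q, v)) = (Fin.castAdd k v, q.1.2.2.1 v)) :
    (∀ v ∈ e, agX E (gq φ q e) v = Sum.inl (φ (q, v))) ∧
      ∀ v, v ∉ e → agX E (gq φ q e) v = Sum.inr v := by
  constructor
  · intro v hv
    have hex : ∃ x ∈ gq φ q e, (E.pt x).1 = Fin.castAdd k v :=
      ⟨φ (q, v), mem_gq.2 ⟨v, hv, rfl⟩, by rw [hp v hv]⟩
    unfold agX
    rw [dif_pos hex]
    obtain ⟨h1, h2⟩ := hex.choose_spec
    obtain ⟨v', hv', hw⟩ := mem_gq.1 h1
    rw [← hw, hp v' hv'] at h2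
    have h3 := cast_inj h2
    rw [← hw, h3]
  · intro v hv
    have hex : ¬ ∃ x ∈ gq φ q e, (E.pt x).1 = Fin.castAdd k v := by
      rintro ⟨x, hx, hxv⟩
      obtain ⟨v', hv', rfl⟩ := mem_gq.1 hx
      rw [hp v' hv'] at hxv
      have h3 := cast_inj hxv
      exact hv (h3 ▸ hv')
    unfold agX
    rw [dif_neg hex]

end one

theorem hasl_rse {τ σ : Sig} {N : ℕ} {J : Type} {Al : Fin σ.m → Fin τ.m → Prop} {l : Fin σ.m}
    {z : Fin (σ.ar l) → J} {t : Ty τ N J} {S : Finset J} (hz : ∀ i, z i ∈ S)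
    (h : hasl Al l z t) : hasl Al l z (rse S t) := by
  obtain ⟨c, hc, har, hm⟩ := h
  refine ⟨c, hc, har, hm, ?_⟩
  intro v i hv
  unfold atm at hv
  dsimp only at hv
  split_ifs at hv with hlt
  have := Option.some.inj hv
  rw [← this]
  exact hz _

theorem pf_CEX : Pool.Agent.H53.GX.T_CEX := by
  intro τ σ N k F Al A 𝔸 hHyp hk I a₀ ha₀ K hK1 hK2 hK3 W _ E f a h hE hRam hind hlbk hrel hx
  choose x hx1 hx2 using hx
  -- the colouring
  obtain ⟨φ, ν, hφ, hν⟩ := hRam (fun G =>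
    if hG : ∃ r : Fin 3, ∀ x ∈ G, inR r (E.pt x).2 then
      h (fun c v => uxX E f a hG.choose c (agX E G v)) else ∅)
  -- the tuples
  obtain ⟨al, hal⟩ : ∃ al : {q : Nm τ N k (N + 1) // CfX F I a₀ q} → Fin k → W ⊕ Fin k,
      al = fun q v => if v ∈ q.1.1 then Sum.inr v else Sum.inl (φ (q, v)) := ⟨_, rfl⟩
  have hal1 : ∀ q v, v ∈ q.1.1 → al q v = Sum.inr v := by
    intro q v hv
    rw [hal]
    exact if_pos hv
  have hal2 : ∀ q v, v ∉ q.1.1 → al q v = Sum.inl (φ (q, v)) := by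
    intro q v hv
    rw [hal]
    exact if_neg hv
  have hreg : ∀ (q : {q : Nm τ N k (N + 1) // CfX F I a₀ q}) (e : Finset (Fin k)),
      Disjoint e q.1.1 → ∀ w ∈ gq φ q e, inR q.1.2.1 (E.pt w).2 := by
    intro q e he w hw
    obtain ⟨v, hv, rfl⟩ := mem_gq.1 hw
    rw [(gq_gd hφ he).2 v hv]
    exact q.2.reg v (Finset.disjoint_left.1 he hv)
  have hag : ∀ (q : {q : Nm τ N k (N + 1) // CfX F I a₀ q}) (e : Finset (Fin k)),
      ∀ v ∈ e, agX E (gq φ q (e \ q.1.1)) v = al q v := by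
    intro q e v hv
    have hp := (gq_gd hφ (q := q) (e := e \ q.1.1) Finset.sdiff_disjoint).2
    by_cases hvS : v ∈ q.1.1
    · rw [(gq_ag hp).2 v (fun h' => (Finset.mem_sdiff.1 h').2 hvS), hal1 q v hvS]
    · rw [(gq_ag hp).1 v (Finset.mem_sdiff.2 ⟨hv, hvS⟩), hal2 q v hvS]
  refine ⟨fun q => if hq : CfX F I a₀ q then K (fun v => x q.2.1 (al ⟨q, hq⟩ v))
    else K (fun _ => a ⟨0, hk⟩), ?_, ?_⟩
  · -- (O1)
    intro q hq
    simp only [dif_pos hq]
    refine ⟨hK1 _, fun l z hz => ?_⟩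
    obtain ⟨Q, hQ⟩ : ∃ Q : {q : Nm τ N k (N + 1) // CfX F I a₀ q}, Q = ⟨q, hq⟩ := ⟨_, rfl⟩
    rw [← hQ]
    have hQ1 : Q.1 = q := by rw [hQ]
    refine hK3 _ l z (hx2 q.2.1 l (fun i => al Q (z i)) fun c => ?_)
    have he : Disjoint (Finset.univ \ q.1) Q.1.1 := by
      rw [hQ1]
      exact Finset.sdiff_disjoint
    obtain ⟨hg, hp⟩ := gq_gd hφ he
    have him := gq_image hp
    have hr := hreg Q _ he
    rw [hQ1] at hg him hr
    let b : Fin (k + k) → A := Fin.addCases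
      (fun v => f (φ (Q, v), pos (q.2.2.1 v) q.2.1 c)) (fun i => a i)
    have hb1 : ∀ v, b (Fin.castAdd k v) = f (φ (Q, v), pos (q.2.2.1 v) q.2.1 c) := fun v =>
      Fin.addCases_left _
    have hb2 : ∀ i, b (Fin.natAdd k i) = a i := fun i => Fin.addCases_right _
    have hKK : (KK E).gd ((gq φ Q (Finset.univ \ q.1)).image
        (fun w => (w, pos (E.pt w).2 q.2.1 c)))
        (rse (ps (Finset.univ \ q.1) ∪ cst I) (q.2.2.2 c)) := by
      refine ⟨gq φ Q (Finset.univ \ q.1), kdx I a₀ q (Finset.univ \ q.1), q.2.1, c, hg, hr,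
        rfl, ?_⟩
      rw [him, hlbk q hq _ Finset.sdiff_disjoint]
    have h1 := hrel _ _ hKK b (fun i _ => hb2 i) (by
      intro y hy
      obtain ⟨w, hw, rfl⟩ := Finset.mem_image.1 hy
      obtain ⟨v, hv, rfl⟩ := mem_gq.1 hw
      change b (E.pt (φ (Q, v))).1 = _
      rw [hp v hv, hQ1]
      exact hb1 v) l (fun i => rdp q.1 (z i)) (by
      intro i
      by_cases hi : z i ∈ q.1
      · refine Finset.mem_union_right _ ?_
        unfold rdp cst
        rw [if_pos hi]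
        exact Finset.mem_image_of_mem _ (hq.sub hi)
      · refine Finset.mem_union_left _ ?_
        unfold rdp
        rw [if_neg hi]
        have hi' : z i ∈ Finset.univ \ q.1 := Finset.mem_sdiff.2 ⟨Finset.mem_univ _, hi⟩
        refine (@Finset.mem_image _ _ (_) _ _ _).2 ⟨(φ (Q, z i), pos (E.pt (φ (Q, z i))).2 q.2.1 c),
          Finset.mem_image_of_mem _ (mem_gq.2 ⟨z i, hi', rfl⟩), ?_⟩
        change (E.pt (φ (Q, z i))).1 = _
        rw [hp (z i) hi']) (hasl_rse (fun i => ?_) (hz c))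
    · have h2 : (fun i => b (rdp q.1 (z i))) = fun i => uxX E f a q.2.1 c (al Q (z i)) := by
        funext i
        by_cases hi : z i ∈ q.1
        · rw [hal1 Q (z i) (by rw [hQ1]; exact hi)]
          unfold rdp
          rw [if_pos hi, hb2]
          rfl
        · rw [hal2 Q (z i) (by rw [hQ1]; exact hi)]
          unfold rdp
          rw [if_neg hi, hb1]
          change _ = f (φ (Q, z i), pos (E.pt (φ (Q, z i))).2 q.2.1 c)
          rw [hp (z i) (Finset.mem_sdiff.2 ⟨Finset.mem_univ _, hi⟩), hQ1]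
      rw [← h2]
      exact h1
    · by_cases hi : z i ∈ q.1
      · refine Finset.mem_union_right _ ?_
        unfold rdp cst
        rw [if_pos hi]
        exact Finset.mem_image_of_mem _ (hq.sub hi)
      · refine Finset.mem_union_left _ ?_
        unfold rdp ps
        rw [if_neg hi]
        exact Finset.mem_image_of_mem _ (Finset.mem_sdiff.2 ⟨Finset.mem_univ _, hi⟩)
  · -- (O2)
    intro q q' e hq hq' hqq
    simp only [dif_pos hq, dif_pos hq']
    have hmain : ∀ Q : {q : Nm τ N k (N + 1) // CfX F I a₀ q},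
        rse e (K (fun v => x Q.1.2.1 (al Q v))) =
          rse e (ν (pts (lbx Q.1.2.2.1) (ps (e \ Q.1.1)))
            (kdx I a₀ Q.1 (e \ Q.1.1))) := by
      intro Q
      have he : Disjoint (e \ Q.1.1) Q.1.1 := Finset.sdiff_disjoint
      obtain ⟨hg, hp⟩ := gq_gd hφ he
      have h1 := hν _ _ (cX_gd (q := Q) he)
      have h2 : ∀ inst : DecidableEq (Fin (k + k) × Rg (N + 1)),
          @Finset.image _ _ inst (cX (N + 1) F I a₀).pt ((e \ Q.1.1).image (fun v => (Q, v))) =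
            pts (lbx Q.1.2.2.1) (ps (e \ Q.1.1)) := by
        intro inst
        ext y
        unfold pts ps
        simp only [Finset.mem_image]
        constructor
        · rintro ⟨w, ⟨v, hv, rfl⟩, rfl⟩
          refine ⟨Fin.castAdd k v, ⟨v, hv, rfl⟩, ?_⟩
          rw [lbx_cast]
          rfl
        · rintro ⟨w, ⟨v, hv, rfl⟩, rfl⟩
          refine ⟨(Q, v), ⟨v, hv, rfl⟩, ?_⟩
          rw [lbx_cast]
          rfl
      rw [h2] at h1
      rw [← h1]
      change _ = rse e (dite _ _ _)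
      have hG : ∃ r : Fin 3, ∀ x ∈ gq φ Q (e \ Q.1.1), inR r (E.pt x).2 :=
        ⟨Q.1.2.1, hreg Q _ he⟩
      have hG' : ∃ r : Fin 3, ∀ x ∈ ((e \ Q.1.1).image (fun v => (Q, v))).image φ,
        inR r (E.pt x).2 := hG
      rw [dif_pos hG']
      have h4 : h (fun c v => uxX E f a hG'.choose c (agX E (gq φ Q (e \ Q.1.1)) v)) =
          h (fun c v => uxX E f a Q.1.2.1 c (agX E (gq φ Q (e \ Q.1.1)) v)) :=
        hind _ _ hg _ _ hG'.choose_spec (hreg Q _ he)
      have h5 : h (fun c v => uxX E f a Q.1.2.1 c (agX E (gq φ Q (e \ Q.1.1)) v)) =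
          K (fun v => x Q.1.2.1 (agX E (gq φ Q (e \ Q.1.1)) v)) := (hx1 Q.1.2.1 _).symm
      refine Eq.trans ?_ (congrArg (rse e) (h4.trans h5)).symm
      refine hK2 _ _ _ fun v hv => ?_
      rw [hag Q e v hv]
    have h1 := hmain ⟨q, hq⟩
    have h2 := hmain ⟨q', hq'⟩
    dsimp only at h1 h2 ⊢
    have h3 : e \ q.1 = e \ q'.1 := by
      ext v
      rw [Finset.mem_sdiff, Finset.mem_sdiff]
      constructor
      · rintro ⟨hv, hv'⟩
        exact ⟨hv, fun hc => hv' ((hqq.sS v hv).2 hc)⟩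
      · rintro ⟨hv, hv'⟩
        exact ⟨hv, fun hc => hv' ((hqq.sS v hv).1 hc)⟩
    have h4 : pts (lbx q.2.2.1) (ps (e \ q.1)) = pts (lbx q'.2.2.1) (ps (e \ q'.1)) := by
      rw [← h3]
      unfold pts ps
      rw [Finset.image_image, Finset.image_image]
      refine Finset.image_congr fun v hv => ?_
      have hv' := Finset.mem_sdiff.1 (Finset.mem_coe.1 hv)
      change (Fin.castAdd k v, lbx q.2.2.1 (Fin.castAdd k v)) =
        (Fin.castAdd k v, lbx q'.2.2.1 (Fin.castAdd k v))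
      rw [lbx_cast, lbx_cast, hqq.sl v hv'.1 hv'.2]
    rw [h1, h2, hqq.sk, h4]

end Pool.Agent.H37.GX
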