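import Pool.Agent.H53.GX.Targets2

/-!
# Forbidden coloured patterns, no precolouring: row LBO
-/

set_option autoImplicit false

open Pool.Agent.H68.BP Pool.Agent.H58.SF Pool.Agent.H53.GM Pool.Agent.H53.GX
open Pool.Agent.H53.GR (So)
open Classical

namespace Pool.Agent.H37.GX

/-- a pattern of two values in `C` is valid -/
theorem vp_pat {τ : Sig} {N k : ℕ} {C : Set (Ty τ N (Fin k))} {I : Finset (Fin k)} (r : Fin 3)
    (P : Fin 2 → Ty τ N (Fin k)) (hP : VP C I P) : VP C I (pat r (P 0) (P 1)) := by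
  have key : ∀ c : Fin 6, pat r (P 0) (P 1) c = P 0 ∨ pat r (P 0) (P 1) c = P 1 := by
    intro c
    fin_cases r <;> fin_cases c <;> simp [pat]
  refine ⟨fun c => ?_, fun e' he' c c' => ?_⟩
  · rcases key c with h | h <;> rw [h]
    · exact hP.mem 0
    · exact hP.mem 1
  · have h00 := hP.eq e' he'
    rcases key c with h | h <;> rcases key c' with h' | h' <;> rw [h, h'] <;> exact h00 _ _

/-- the statements for tuples -/
theorem lbo_key (hCFG : Pool.Agent.H53.GX.T_CFG) (τ σ : Sig) (N k : ℕ)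
    (F : Set (Str τ (Fin N))) (Al : Fin σ.m → Fin τ.m → Prop) (hk : 1 ≤ k)
    (eps : Ty τ N (Fin k) → Ty τ N (Fin k)) (hcore : Core F Al eps) (I : Finset (Fin k))
    (Out : Ty τ N (Fin (k + k)) → Nm τ N k (N + 1) → Ty τ N (Fin k))
    (th : Ty τ N (Fin (k + k)) → Nm τ N k (N + 1) → Ty τ N (Fin k) → Ty τ N (Fin k))
    (hcor : ∀ a₀ : Ty τ N (Fin (k + k)), (∃ P, Rl F P ∧ rse (cst I) P = a₀) →
      CorP F Al I a₀ eps (Out a₀) (th a₀))
    (r : Fin 3) (lb : Fin k → Rg (N + 1)) (hin : ∀ v, inR r (lb v))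
    (hadj : ∀ v v', Adj (lb v) (lb v')) (P : Fin 6 → Ty τ N (Fin k))
    (hP : VP (CS F eps) I P) (hb : (∀ v, lb v = none) ∨ ∃ x y, P = pat r x y) :
    Ps eps I Out th r lb P ∈ CS F eps ∧
    (∀ (l : Fin σ.m) (z : Fin (σ.ar l) → Fin k), (∀ i, hasl Al l z (P i)) →
      hasl Al l z (Ps eps I Out th r lb P)) ∧
    (∀ (e : Finset (Fin k)) t, (∀ i, rse e (P i) = t) →
      rse e (Ps eps I Out th r lb P) = t) ∧
    (∀ P' : Fin 6 → Ty τ N (Fin k), VP (CS F eps) I P' →
      ((∀ v, lb v = none) ∨ ∃ x y, P' = pat r x y) → ∀ e : Finset (Fin k), I ⊂ e →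
      (∀ i, rse e (P i) = rse e (P' i)) →
      rse e (Ps eps I Out th r lb P) = rse e (Ps eps I Out th r lb P')) := by
  have hC : ∀ P ∈ CS F eps, Rl F P := fun P hP => hP.1
  obtain ⟨g1, g2, g3, g4⟩ := hCFG τ σ N k (N + 1) F I hk (CS F eps) hC r lb hin hadj P hP hb
  have hc := hcor _ g1
  have hrl : Rl F (Out (rse (cst I) (dup (P 0))) (cfg I r lb P)) := hc.out.rl _ g2.cf
  have hmem : ∀ T, Rl F T → eps T ∈ CS F eps := fun T hT => ⟨hcore.nat.mem T hT, hcore.idem T hT⟩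
  refine ⟨?_, ?_, ?_, ?_⟩
  · exact (hc.nat _ g2).mem _ (hmem _ hrl)
  · intro l z hz
    refine (hc.nat _ g2).has _ (hmem _ hrl) l z ?_
    refine hcore.nat.has _ hrl l z ?_
    refine hc.out.has _ g2.cf l z ?_
    intro c
    rw [g3 c]
    exact hz c
  · intro e t ht
    have hdg : DgX (CS F eps) (cfg I r lb P) e := by
      refine ⟨fun c => ?_, P 0, hP.mem 0, ?_⟩
      · rw [g3 c, g3 0, ht c, ht 0]
      · rw [g3 0]
    have h1 := hc.dg _ e g2 hdg
    show rse e (th _ _ (eps (Out _ _))) = t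
    rw [h1, g3 0, ht 0]
  · intro P' hP' hb' e he heq
    obtain ⟨g1', g2', g3', _⟩ := hCFG τ σ N k (N + 1) F I hk (CS F eps) hC r lb hin hadj P' hP' hb'
    have heI : e ∪ I = e := Finset.union_eq_left.mpr he.1
    obtain ⟨ha, hE, _⟩ := g4 r lb P' e hP' (fun _ _ => rfl) (by
      intro c
      rw [heI]
      exact heq c)
    have hE := hE rfl
    rw [← ha] at g2'
    have hrl' : Rl F (Out (rse (cst I) (dup (P 0))) (cfg I r lb P')) := hc.out.rl _ g2'.cf
    have h1 := hc.out.eq _ _ e g2.cf g2'.cf hE.eqx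
    have h2 := hcore.nat.nat _ hrl _ hrl' e h1
    have h3 := hc.eq _ _ e g2 g2' hE _ (hmem _ hrl) _ (hmem _ hrl') h2
    show rse e (th (rse (cst I) (dup (P 0))) (cfg I r lb P)
      (eps (Out (rse (cst I) (dup (P 0))) (cfg I r lb P)))) =
      rse e (th (rse (cst I) (dup (P' 0))) (cfg I r lb P')
        (eps (Out (rse (cst I) (dup (P' 0))) (cfg I r lb P'))))
    rw [← ha]
    exact h3

theorem pf_LBO (hCFG : Pool.Agent.H53.GX.T_CFG) : Pool.Agent.H53.GX.T_LBO := by
  intro τ σ N k F Al hk eps hcore I Out th hcor r lb hin hadj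
  have key := lbo_key hCFG τ σ N k F Al hk eps hcore I Out th hcor r lb hin hadj
  refine ⟨fun hlb => ?_, ?_⟩
  · refine ⟨fun P hP => (key P hP (Or.inl hlb)).1, fun P hP l z h =>
      (key P hP (Or.inl hlb)).2.1 l z h, fun P P' hP hP' e he h =>
      (key P hP (Or.inl hlb)).2.2.2 P' hP' (Or.inl hlb) e he h, fun P hP e t h =>
      (key P hP (Or.inl hlb)).2.2.1 e t h⟩
  · have hb : ∀ P : Fin 2 → Ty τ N (Fin k), (∀ v, lb v = none) ∨
        ∃ x y, pat r (P 0) (P 1) = pat r x y := fun P => Or.inr ⟨_, _, rfl⟩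
    have hv : ∀ P : Fin 2 → Ty τ N (Fin k), ∀ c : Fin 6, pat r (P 0) (P 1) c = P 0 ∨
        pat r (P 0) (P 1) c = P 1 := by
      intro P c
      fin_cases r <;> fin_cases c <;> simp [pat]
    refine ⟨fun P hP => (key _ (vp_pat r P hP) (hb P)).1, fun P hP l z h =>
      (key _ (vp_pat r P hP) (hb P)).2.1 l z ?_, fun P P' hP hP' e he h =>
      (key _ (vp_pat r P hP) (hb P)).2.2.2 _ (vp_pat r P' hP') (hb P') e he ?_,
      fun P hP e t h => (key _ (vp_pat r P hP) (hb P)).2.2.1 e t ?_⟩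
    · intro c
      rcases hv P c with h' | h' <;> rw [h']
      · exact h 0
      · exact h 1
    · intro c
      rw [pat_map (fun T => rse e T) r (P 0) (P 1) c, pat_map (fun T => rse e T) r (P' 0) (P' 1) c]
      simp only [h 0, h 1]
    · intro c
      rcases hv P c with h' | h' <;> rw [h']
      · exact h 0
      · exact h 1

end Pool.Agent.H37.GX
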